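import Mathlib
import Pool.Agent.W262.TW.Stm2
import Pool.Agent.W586.RK.UB

set_option autoImplicit false

/-! # TW-UBQ: uniform upper bound for sums of real characters over primes -/

namespace Pool.Agent.W578.TW.UBQ

open Finset Filter Topology
open Pool.Agent.W262.RK Pool.Agent.W586.RK.UB

lemma jac_of_mod {m n : ℕ} (hm : m ≠ 0) (hodd : Odd n) (h : n ≡ 1 [MOD 4 * m]) :
    jacobiSym m n = 1 := by
  rw [jacobiSym.mod_right' m hodd]
  have h1 : n % (4 * m) = 1 := by
    have h5 : n % (4 * m) = 1 % (4 * m) := h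
    rw [h5]
    exact Nat.mod_eq_of_lt (by omega)
  rw [h1, jacobiSym.one_right]

lemma cop_of_mod {n N : ℕ} (h : n ≡ 1 [MOD N]) : Nat.Coprime n N := by
  have := h.gcd_eq
  unfold Nat.Coprime
  rw [this]; simp

lemma case_odd (ε : ℤ) (hε : ε = 1 ∨ ε = -1) (a b l : ℕ) (hl : l.Prime) (hl2 : l ≠ 2)
    (ha : Squarefree a) (hla : l ∣ a) (hb : 0 < b) :
    ∃ n : ℕ, Odd n ∧ Nat.Coprime n a ∧ Nat.Coprime n b ∧ jacobiSym (ε * a) n = -1 := by
  have hfp : Fact l.Prime := ⟨hl⟩
  obtain ⟨m, rfl⟩ := hla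
  have hcm : Nat.Coprime l m := Nat.coprime_of_squarefree_mul ha
  have hm0 : m ≠ 0 := by
    rintro rfl
    simp at ha
  have hlodd : Odd l := hl.odd_of_ne_two hl2
  set B := b / l ^ b.factorization l with hB
  have hcB : Nat.Coprime l B := Nat.coprime_ordCompl hl hb.ne'
  have hbB : l ^ b.factorization l * B = b := Nat.ordProj_mul_ordCompl_eq_self b l
  have hc4 : Nat.Coprime l 4 := by
    have : Nat.Coprime l 2 := Nat.coprime_two_right.2 hlodd
    exact this.mul_right this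
  have hcop : Nat.Coprime l (4 * m * B) := (hc4.mul_right hcm).mul_right hcB
  obtain ⟨c, hc⟩ := FiniteField.exists_nonsquare (F := ZMod l)
    (by rw [ZMod.ringChar_zmod_n]; exact hl2)
  obtain ⟨n, hn1, hn2⟩ := Nat.chineseRemainder hcop c.val 1
  have h1 : jacobiSym n l = -1 := by
    rw [← jacobiSym.legendreSym.to_jacobiSym, legendreSym.eq_neg_one_iff]
    have : ((n : ℤ) : ZMod l) = c := by
      have := (ZMod.natCast_eq_natCast_iff n c.val l).2 hn1
      push_cast
      rw [this, ZMod.natCast_zmod_val]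
    rwa [this]
  have hn4m : n ≡ 1 [MOD 4 * m] := hn2.of_mul_right _
  have hn4 : n ≡ 1 [MOD 4] := hn4m.of_mul_right _
  have hn4' : n % 4 = 1 := hn4
  have hnodd : Odd n := by
    rw [Nat.odd_iff]
    omega
  have h2 : jacobiSym m n = 1 := jac_of_mod hm0 hnodd hn4m
  have h3 : jacobiSym l n = -1 := by
    rw [← jacobiSym.quadratic_reciprocity_one_mod_four hn4' hlodd]
    exact h1
  have h4 : jacobiSym ε n = 1 := by
    rcases hε with rfl | rfl
    · exact jacobiSym.one_left n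
    · rw [jacobiSym.at_neg_one hnodd]
      exact ZMod.χ₄_nat_one_mod_four hn4'
  have hcnl : Nat.Coprime n l := by
    by_contra hcc
    have : jacobiSym n l = 0 := by
      rw [jacobiSym.eq_zero_iff]
      refine ⟨hl.ne_zero, ?_⟩
      rw [Int.gcd_natCast_natCast]; exact hcc
    rw [h1] at this
    norm_num at this
  have hcN : Nat.Coprime n (4 * m * B) := cop_of_mod hn2
  refine ⟨n, hnodd, ?_, ?_, ?_⟩
  · exact hcnl.mul_right (Nat.Coprime.coprime_mul_left_right (Nat.Coprime.coprime_mul_right_right hcN))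
  · rw [← hbB]
    exact (hcnl.pow_right _).mul_right (Nat.Coprime.coprime_mul_left_right hcN)
  · push_cast
    rw [jacobiSym.mul_left, jacobiSym.mul_left, h2, h3, h4]
    norm_num

lemma case_two (ε : ℤ) (hε : ε = 1 ∨ ε = -1) (a b : ℕ) (ha : a = 1 ∨ a = 2)
    (hne : ε * a ≠ 1) (hb : 0 < b) :
    ∃ n : ℕ, Odd n ∧ Nat.Coprime n a ∧ Nat.Coprime n b ∧ jacobiSym (ε * a) n = -1 := by
  set B := b / 2 ^ b.factorization 2 with hB
  have hcB : Nat.Coprime 2 B := Nat.coprime_ordCompl Nat.prime_two hb.ne'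
  have hbB : 2 ^ b.factorization 2 * B = b := Nat.ordProj_mul_ordCompl_eq_self b 2
  have hcop : Nat.Coprime 8 B := by
    have : Nat.Coprime (2 ^ 3) B := Nat.Coprime.pow_left 3 hcB
    exact this
  have hgen : ∀ r : ℕ, ∃ n : ℕ, n % 8 = r % 8 ∧ Nat.Coprime n B := by
    intro r
    obtain ⟨n, hn1, hn2⟩ := Nat.chineseRemainder hcop r 1
    exact ⟨n, hn1, cop_of_mod hn2⟩
  have hfin : ∀ n : ℕ, Odd n → Nat.Coprime n B → Nat.Coprime n a ∧ Nat.Coprime n b := by
    intro n hn hnB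
    have hn2 : Nat.Coprime n 2 := Nat.coprime_two_right.2 hn
    refine ⟨?_, ?_⟩
    · rcases ha with rfl | rfl
      · exact Nat.coprime_one_right n
      · exact hn2
    · rw [← hbB]
      exact (hn2.pow_right _).mul_right hnB
  have h8 : ∀ n : ℕ, Odd n → jacobiSym 2 n = if n % 2 = 0 then 0 else if n % 8 = 1 ∨ n % 8 = 7 then 1 else -1 := by
    intro n hn
    rw [jacobiSym.at_two hn]
    exact ZMod.χ₈_nat_eq_if_mod_eight n
  rcases hε with rfl | rfl
  · rcases ha with rfl | rfl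
    · exact absurd (by norm_num) hne
    · obtain ⟨n, hn, hnB⟩ := hgen 3
      have hodd : Odd n := by rw [Nat.odd_iff]; omega
      obtain ⟨e1, e2⟩ := hfin n hodd hnB
      refine ⟨n, hodd, e1, e2, ?_⟩
      have : ((1 : ℤ) * ((2 : ℕ) : ℤ)) = 2 := by norm_num
      rw [this, h8 n hodd, if_neg (by omega), if_neg (by omega)]
  · rcases ha with rfl | rfl
    · obtain ⟨n, hn, hnB⟩ := hgen 3
      have hodd : Odd n := by rw [Nat.odd_iff]; omega
      obtain ⟨e1, e2⟩ := hfin n hodd hnB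
      refine ⟨n, hodd, e1, e2, ?_⟩
      have : ((-1 : ℤ) * ((1 : ℕ) : ℤ)) = -1 := by norm_num
      rw [this, jacobiSym.at_neg_one hodd]
      exact ZMod.χ₄_nat_three_mod_four (by omega)
    · obtain ⟨n, hn, hnB⟩ := hgen 5
      have hodd : Odd n := by rw [Nat.odd_iff]; omega
      obtain ⟨e1, e2⟩ := hfin n hodd hnB
      refine ⟨n, hodd, e1, e2, ?_⟩
      have : ((-1 : ℤ) * ((2 : ℕ) : ℤ)) = (-1) * 2 := by norm_num
      rw [this, jacobiSym.mul_left, h8 n hodd, if_neg (by omega), if_neg (by omega),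
        jacobiSym.at_neg_one hodd, ZMod.χ₄_nat_one_mod_four (by omega)]
      norm_num

lemma exists_n0 (q : ℤ) (hq : ¬ IsSquare q) :
    ∃ n : ℕ, Odd n ∧ Nat.Coprime n (4 * q.natAbs) ∧ jacobiSym q n = -1 := by
  have hq0 : q ≠ 0 := by
    rintro rfl
    exact hq ⟨0, by norm_num⟩
  obtain ⟨a, b, ha0, hb0, hab, hsq⟩ := Nat.sq_mul_squarefree_of_pos (Int.natAbs_pos.2 hq0)
  obtain ⟨ε, hε, hεq⟩ : ∃ ε : ℤ, (ε = 1 ∨ ε = -1) ∧ q = ε * q.natAbs := by
    rcases Int.natAbs_eq q with h | h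
    · exact ⟨1, Or.inl rfl, by rw [one_mul]; exact h⟩
    · exact ⟨-1, Or.inr rfl, by rw [neg_one_mul]; exact h⟩
  have hq' : q = (b : ℤ) ^ 2 * (ε * a) := by
    rw [hεq, ← hab]
    push_cast
    ring
  have hne : ε * a ≠ 1 := by
    intro h
    apply hq
    rw [hq', h, mul_one]
    exact ⟨b, by ring⟩
  have key : ∃ n : ℕ, Odd n ∧ Nat.Coprime n a ∧ Nat.Coprime n b ∧ jacobiSym (ε * a) n = -1 := by
    by_cases hl : ∃ l : ℕ, l.Prime ∧ l ≠ 2 ∧ l ∣ a
    · obtain ⟨l, hl1, hl2, hl3⟩ := hl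
      exact case_odd ε hε a b l hl1 hl2 hsq hl3 hb0
    · push Not at hl
      have h2 := Nat.eq_prime_pow_of_unique_prime_dvd (p := 2) ha0.ne' (fun {d} hd hda => by
        by_contra hd2
        exact hl d hd hd2 hda)
      have ha12 : a = 1 ∨ a = 2 := by
        set k := a.primeFactorsList.length
        have hk : k ≤ 1 := by
          by_contra hk
          push Not at hk
          have h4 : 2 * 2 ∣ a := by
            rw [h2]
            exact (pow_dvd_pow 2 hk)
          have := hsq 2 h4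
          rw [Nat.isUnit_iff] at this
          omega
        interval_cases k
        · left; simpa using h2
        · right; simpa using h2
      exact case_two ε hε a b ha12 hne hb0
  obtain ⟨n, hn, hna, hnb, hj⟩ := key
  refine ⟨n, hn, ?_, ?_⟩
  · rw [← hab]
    have hn2 : Nat.Coprime n 2 := Nat.coprime_two_right.2 hn
    have hn4 : Nat.Coprime n 4 := hn2.mul_right hn2
    exact hn4.mul_right ((hnb.pow_right 2).mul_right hna)
  · rw [hq', jacobiSym.mul_left, hj, jacobiSym.sq_one', one_mul]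
    rw [Int.gcd_natCast_natCast]
    exact hnb.symm

/-- the character -/
noncomputable def fq (q : ℤ) : ℕ →*₀ ℝ where
  toFun n := if Odd n then Jr q n else 0
  map_zero' := by simp
  map_one' := by simp [Jr]
  map_mul' m n := by
    by_cases hm : Odd m
    · by_cases hn : Odd n
      · rw [if_pos (hm.mul hn), if_pos hm, if_pos hn]
        have hm0 : m ≠ 0 := by rintro rfl; simp at hm
        have hn0 : n ≠ 0 := by rintro rfl; simp at hn
        unfold Jr
        rw [jacobiSym.mul_right' _ hm0 hn0, Int.cast_mul]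
      · rw [if_neg (fun h => hn (Nat.odd_mul.1 h).2), if_neg hn, mul_zero]
    · rw [if_neg (fun h => hm (Nat.odd_mul.1 h).1), if_neg hm, zero_mul]

lemma fq_apply (q : ℤ) (n : ℕ) : fq q n = if Odd n then Jr q n else 0 := rfl

lemma fq_abs (q : ℤ) (n : ℕ) : |fq q n| ≤ 1 := by
  rw [fq_apply]
  split_ifs
  · exact Jr_abs q n
  · simp

lemma fq_per (q : ℤ) : Function.Periodic (fq q) (4 * q.natAbs) := by
  intro n
  rw [fq_apply, fq_apply]
  have hodd : Odd (n + 4 * q.natAbs) ↔ Odd n := by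
    have : Even (4 * q.natAbs) := ⟨2 * q.natAbs, by ring⟩
    rw [Nat.odd_add]
    constructor
    · intro h; exact h.2 this
    · intro h; exact ⟨fun _ => this, fun _ => h⟩
  by_cases hn : Odd n
  · rw [if_pos hn, if_pos (hodd.2 hn)]
    unfold Jr
    congr 1
    rw [jacobiSym.mod_right q (hodd.2 hn), jacobiSym.mod_right q hn, Nat.add_mod_right]
  · rw [if_neg hn, if_neg (fun h => hn (hodd.1 h))]

theorem ubq : Pool.Agent.W262.TW.UBQ := by
  intro z hz
  obtain ⟨C1, hC1⟩ := Pool.Agent.Helper256.KM.mertens_log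
  obtain ⟨C2, hC2⟩ := Pool.Agent.Helper256.KM.mertens_inv
  have hC10 : 0 ≤ C1 := (abs_nonneg _).trans (hC1 1 le_rfl)
  have hC20 : 0 ≤ C2 := (abs_nonneg _).trans (hC2 3 le_rfl)
  set K : ℝ := Real.log 4 + 3 with hK
  have hlog4 : 0 ≤ Real.log (4 : ℝ) := Real.log_nonneg (by norm_num)
  have hK0 : 0 < K := by linarith
  have hK1 : 1 ≤ K := by linarith
  have hl3 : 1 ≤ Real.log 3 := by
    rw [Real.le_log_iff_exp_le (by norm_num)]
    linarith [Real.exp_one_lt_d9]
  refine ⟨Real.log 2 + Real.log K + C2 + 2 + 2 * C1 + z, ?_⟩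
  intro q hq y
  have hq0 : q ≠ 0 := by
    rintro rfl
    exact hq ⟨0, by norm_num⟩
  have hqa : 0 < q.natAbs := Int.natAbs_pos.2 hq0
  have hqr : (1 : ℝ) ≤ q.natAbs := by exact_mod_cast hqa
  set R : ℝ := (q.natAbs : ℝ) + 3 with hR
  have hLr : 1 ≤ Real.log R :=
    hl3.trans (Real.log_le_log (by norm_num) (by rw [hR]; linarith))
  have hLLr : 0 ≤ Real.log (Real.log R) := Real.log_nonneg hLr
  have hconst : 0 ≤ Real.log 2 + Real.log K + C2 + 2 + 2 * C1 + z := by
    have e1 : 0 ≤ Real.log 2 := Real.log_nonneg (by norm_num)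
    have e2 : 0 ≤ Real.log K := Real.log_nonneg hK1
    positivity
  rcases Nat.lt_or_ge z y with hzy | hzy
  swap
  · have hempty : PS z y = ∅ := by
      unfold PS
      rw [Finset.Ioc_eq_empty (by omega)]
      simp
    rw [hempty, Finset.sum_empty]
    linarith
  have hy3 : 3 ≤ y := by omega
  have hLy : 1 ≤ Real.log y :=
    hl3.trans (Real.log_le_log (by norm_num) (by exact_mod_cast hy3))
  set s : ℝ := 1 / Real.log y with hs
  have hLy0 : 0 < Real.log y := by linarith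
  have hs0 : 0 < s := by positivity
  have hs1 : s ≤ 1 := by rw [hs, div_le_one hLy0]; exact hLy
  set f := fq q with hf
  set T : Finset Nat.Primes := Finset.subtype Nat.Prime (Icc 1 y) with hT
  have hconv : ∀ g : ℕ → ℝ, ∑ p ∈ T, g (p : ℕ) = ∑ p ∈ (Icc 1 y).filter Nat.Prime, g p := by
    intro g
    exact Finset.sum_subtype_eq_sum_filter (s := Icc 1 y) (p := Nat.Prime) g
  obtain ⟨hsum, hEL⟩ := euler_lower f (fq_abs q) s hs0 hs1 T
  obtain ⟨n0, hn0odd, hn0, hn01⟩ := exists_n0 q hq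
  have hfn0 : f n0 = -1 := by
    rw [hf, fq_apply, if_pos hn0odd]
    unfold Jr
    rw [hn01]
    norm_num
  have hL0 : 1 ≤ 4 * q.natAbs := by omega
  have hLb := L_bound hL0 (fq_abs q) (fq_per q)
    (sum_period (by omega) (fq_per q) hn0 (fun n => by rw [← hf, map_mul, hfn0]; ring)) s hs0 hsum
  have hlogq : Real.log ((4 * q.natAbs : ℕ) : ℝ) ≤ Real.log 4 + Real.log R := by
    push_cast
    rw [Real.log_mul (by positivity) (by positivity)]
    have : Real.log (q.natAbs : ℝ) ≤ Real.log R :=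
      Real.log_le_log (by linarith) (by rw [hR]; linarith)
    linarith
  have hLK : ∑' n : ℕ, (n : ℝ) ^ (-(1 + s)) * f n ≤ K * Real.log R := by
    have h1 : (Real.log 4 + 2) * 1 ≤ (Real.log 4 + 2) * Real.log R :=
      mul_le_mul_of_nonneg_left hLr (by linarith)
    have h2 : K * Real.log R = (Real.log 4 + 2) * Real.log R + Real.log R := by rw [hK]; ring
    rw [h2]
    linarith
  have h2s : 2 / s = 2 * Real.log y := by
    rw [hs]; field_simp
  rw [h2s] at hEL
  have h1 : ∑ p ∈ T, (1 + f (p : ℕ)) * ((p : ℕ) : ℝ) ^ (-(1 + s)) ≤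
      Real.log 2 + Real.log (Real.log y) + (Real.log K + Real.log (Real.log R)) := by
    have h2 := hEL.trans (mul_le_mul_of_nonneg_left hLK (by positivity))
    rw [← Real.log_mul (by positivity) (by linarith), ← Real.log_mul hK0.ne' (by linarith),
      ← Real.log_mul (by positivity) (by positivity)]
    rw [Real.le_log_iff_exp_le (by positivity)]
    exact h2
  have h3 : ∑ p ∈ T, (1 + f (p : ℕ)) * ((p : ℕ) : ℝ) ^ (-(1 + s)) ≥
      ∑ p ∈ (Icc 1 y).filter Nat.Prime, ((1 : ℝ) / p + f p / p - 2 * s * (Real.log p / p)) := by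
    rw [ge_iff_le, ← hconv (fun p => (1 : ℝ) / p + f p / p - 2 * s * (Real.log p / p))]
    refine sum_le_sum fun p _ => ?_
    have hp1 : (1 : ℝ) < ((p : ℕ) : ℝ) := by exact_mod_cast p.2.one_lt
    have hp0 : (0 : ℝ) < ((p : ℕ) : ℝ) := by linarith
    have hlp : 0 < Real.log ((p : ℕ) : ℝ) := Real.log_pos hp1
    have h4 : ((p : ℕ) : ℝ) ^ (-(1 + s)) = ((p : ℕ) : ℝ) ^ (-s) / (p : ℕ) := by
      rw [show -(1 + s) = -s - 1 by ring, Real.rpow_sub hp0, Real.rpow_one]
    have h5 : 1 - s * Real.log ((p : ℕ) : ℝ) ≤ ((p : ℕ) : ℝ) ^ (-s) := by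
      rw [Real.rpow_def_of_pos hp0]
      have := Real.add_one_le_exp (Real.log ((p : ℕ) : ℝ) * -s)
      linarith
    have h6 := abs_le.1 (fq_abs q p)
    rw [← hf] at h6
    have h7 : (1 + f (p : ℕ)) * (1 - s * Real.log ((p : ℕ) : ℝ)) ≤
        (1 + f (p : ℕ)) * ((p : ℕ) : ℝ) ^ (-s) := mul_le_mul_of_nonneg_left h5 (by linarith)
    have h8 : (1 + f (p : ℕ)) * (s * Real.log ((p : ℕ) : ℝ)) ≤ 2 * (s * Real.log ((p : ℕ) : ℝ)) :=
      mul_le_mul_of_nonneg_right (by linarith) (by positivity)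
    have h9 : (1 + f (p : ℕ) - 2 * (s * Real.log ((p : ℕ) : ℝ))) ≤
        (1 + f (p : ℕ)) * ((p : ℕ) : ℝ) ^ (-s) := by linarith
    calc (1 : ℝ) / (p : ℕ) + f p / (p : ℕ) - 2 * s * (Real.log (p : ℕ) / (p : ℕ))
        = (1 + f (p : ℕ) - 2 * (s * Real.log ((p : ℕ) : ℝ))) / (p : ℕ) := by ring
      _ ≤ ((1 + f (p : ℕ)) * ((p : ℕ) : ℝ) ^ (-s)) / (p : ℕ) :=
          div_le_div_of_nonneg_right h9 hp0.le
      _ = _ := by rw [h4]; ring
  rw [sum_sub_distrib, sum_add_distrib, ← mul_sum] at h3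
  have h10 := (abs_le.1 (hC2 y hy3)).1
  have h11 := (abs_le.1 (hC1 y (by omega))).2
  have h12 : 2 * s * ∑ p ∈ (Icc 1 y).filter Nat.Prime, Real.log p / p ≤ 2 + 2 * C1 := by
    have h13 : 2 * s * ∑ p ∈ (Icc 1 y).filter Nat.Prime, Real.log p / p ≤
        2 * s * (Real.log y + C1) := mul_le_mul_of_nonneg_left (by linarith) (by positivity)
    have h14 : 2 * s * (Real.log y + C1) = 2 + 2 * (s * C1) := by
      rw [hs]; field_simp
    have h15 : s * C1 ≤ 1 * C1 := mul_le_mul_of_nonneg_right hs1 hC10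
    linarith
  have hmain : ∑ p ∈ (Icc 1 y).filter Nat.Prime, f p / (p : ℝ) ≤
      Real.log 2 + Real.log K + Real.log (Real.log R) + C2 + 2 + 2 * C1 := by
    linarith
  -- the small primes
  have hsplit : ∑ p ∈ (Icc 1 y).filter Nat.Prime, f p / (p : ℝ) =
      ∑ p ∈ (Icc 1 z).filter Nat.Prime, f p / (p : ℝ) + ∑ p ∈ PS z y, f p / (p : ℝ) := by
    rw [← sum_union]
    · refine sum_congr ?_ fun _ _ => rfl
      ext p
      simp only [PS, mem_union, mem_filter, mem_Icc, mem_Ioc]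
      constructor
      · rintro ⟨⟨h1, h2⟩, h3⟩
        rcases Nat.lt_or_ge z p with h4 | h4
        · right; exact ⟨⟨h4, h2⟩, h3⟩
        · left; exact ⟨⟨h1, h4⟩, h3⟩
      · rintro (⟨⟨h1, h2⟩, h3⟩ | ⟨⟨h1, h2⟩, h3⟩)
        · exact ⟨⟨h1, by omega⟩, h3⟩
        · exact ⟨⟨by omega, h2⟩, h3⟩
    · rw [Finset.disjoint_left]
      intro p h1 h2
      simp only [PS, mem_filter, mem_Icc, mem_Ioc] at h1 h2
      omega
  have hsmall : -(z : ℝ) ≤ ∑ p ∈ (Icc 1 z).filter Nat.Prime, f p / (p : ℝ) := by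
    have h16 : ∀ p ∈ (Icc 1 z).filter Nat.Prime, (-1 : ℝ) ≤ f p / (p : ℝ) := by
      intro p hp
      rw [mem_filter, mem_Icc] at hp
      have hp0 : (1 : ℝ) ≤ p := by exact_mod_cast hp.1.1
      rw [le_div_iff₀ (by linarith)]
      have := (abs_le.1 (fq_abs q p)).1
      rw [← hf] at this
      linarith
    have h17 := Finset.card_nsmul_le_sum _ _ _ h16
    have h18 : ((Icc 1 z).filter Nat.Prime).card ≤ z := by
      refine (card_filter_le _ _).trans ?_
      simp
    have h19 : (((Icc 1 z).filter Nat.Prime).card : ℝ) ≤ z := by exact_mod_cast h18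
    rw [nsmul_eq_mul] at h17
    linarith
  have hfin : ∑ p ∈ PS z y, Jr q p / (p : ℝ) = ∑ p ∈ PS z y, f p / (p : ℝ) := by
    refine sum_congr rfl fun p hp => ?_
    simp only [PS, mem_filter, mem_Ioc] at hp
    have hodd : Odd p := hp.2.odd_of_ne_two (by omega)
    rw [hf, fq_apply, if_pos hodd]
  rw [hfin]
  linarith

end Pool.Agent.W578.TW.UBQ
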